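import Pool.Agent.V7H44.HL.Pole

/-!
# Hasse-Weil L-functions of all degrees, also even ones, with arbitrary Hodge numbers, of varieties with
complex multiplication by `ℤ[i]` over the ray class fields of `ℚ(i)`

Let `E : y² = x³ - x`, let `K` be the ray class field of `ℚ(i)` of modulus `q`, `2 + 2i ∣ q`, and let
`M ≥ 1` be an integer divisible by the primes of `K` above `q`.  For a place `v ∤ M` of `K` let
`α_v, β_v` be the roots of `T² - a_v T + N v`, where
`a_v = N v - #{(x, y) mod v : y² = x³ - x}`.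

Let `X` be a projective and smooth scheme over `𝓞 K [1/M]`.  Say that `H^i(X)` is of type `E` if
`P_i(X(v), T) = ∏_{j ≤ i} (1 - α_v^j β_v^(i-j) T)^{h_j}` for all places `v ∤ M` of `K`, where
`h_j = h^{j,i-j}` are the Hodge numbers.  Examples are the powers of `E` and their products with
projective spaces in all the degrees `i`, even and odd (by the Künneth formula), the Kummer surface of
`E × E`, a K3 surface with Picard number 20 (`i = 2`, Hodge numbers 1, 20, 1), and the Hilbert schemes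
of points of these surfaces.  (That these `X` are of type `E` is not part of the formal statement, in
which only the numbers `h_j` and the roots `α_v, β_v` occur.)  As a scheme over `ℤ[1/M]`, `X` is
projective and smooth, because `K/ℚ` is unramified outside `M`, and
`L(i; X, s) = ∏_{v ∤ M} P_i(X(v), N v^(-s))⁻¹`.

We prove for all `q`, all `M`, all degrees `i` and all symmetric Hodge numbers `h_j = h_{i-j}`:

* (a) `L(i; X, s)` is meromorphic on the whole plane, with a pole of the exact order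
  `h^{i/2,i/2}` at `s = 1 + i/2` (`i` even; the pole predicted by Tate) and no other pole; it is
  entire if `i` is odd;
* it has no zeros for `Re s ≥ 1 + i/2`;
* (c), (d) without any hypothesis, at least 67.25 per cent of the zeros with `i/2 < Re s < i/2 + 1` and
  `T < Im s ≤ 2T`, counted with multiplicity, lie on the critical line `Re s = (i+1)/2`, for all `T`
  with `C (1 + √(log N(q))) ≤ T ≤ N(q)^η`, if the level of the Hodge structure `H^i(X)` (the
  largest `|j - (i-j)|` with `h_j ≠ 0`) is at most `N(q)^η`; the number of these zeros is at least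
  `b_i [K : ℚ(i)] T`.  The constants `C`, `η` are absolute; the degree `i` and the Betti number
  `b_i = ∑ h_j` are not bounded in terms of `q`.

The starting file PowersRayClassFields has this for the odd degrees of the powers of `E`.  In the even
degrees the L-functions of the characters of finite order occur as well, in particular the zeta function
of `ℚ(i)`, with its pole, a single function on which the mean square over the family gives no
information; its zeros are outweighed by a small gain in the inequality for the others.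

Proof.  `L(i; X, s + i/2)` is, up to the Euler factors at the places above `M`, the product of
`ζ_K(s)^{h_{i/2}}` and of the `(L_K(s, ψ^k) L_K(s, ψ^(-k)))^{h_j}`, `k = i - 2j ≥ 1`.  By class field
theory for `K` (the Artin map is given with `K`) and Gauss' formula for `a_v` these are products of
L-functions of Hecke characters of `ℚ(i)` of infinity type `k` and of conductor dividing `q` (or its
conjugate).  For each `k ≤ N(q)^η` the trace inequality for the zeros weighted by test functions of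
Montgomery-Taylor type, the explicit formula and the mean square over the characters modulo `q` give the
proportion.  The order of the pole follows from Dirichlet's class number formula for `K`.
-/

set_option autoImplicit false

open Complex NumberField IsDedekindDomain

namespace Pool.Agent.Results.MP_7193be_nt.AllHodgeNumbersH44

/-- `K` is the ray class field of `ℚ(i)` of modulus `q`: `ι` embeds `ℤ[i]` into the ring of integers
of `K`, and `art` is the Artin map, a homomorphism from `(ℤ[i]/q)ˣ` to the group of automorphisms of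
the ring of integers of `K` (equivalently of `K`) such that
* `ℤ[i]` is the ring of invariants (so `K/ℚ(i)` is Galois and its group is the image of `art`),
* the kernel consists of the classes of the units of `ℤ[i]` (so the Galois group is the ray class
  group modulo `q`),
* `K/ℚ(i)` is unramified outside `q`: the inertia group at every prime `v` of `K` not dividing `q`
  is trivial,
* for every prime `π` of `ℤ[i]` not dividing `q`, `art π` is the Frobenius automorphism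
  `x ↦ x ^ N(π)` at all primes `v` of `K` above `π`. -/
structure IsRayClassField (q : GaussianInt) (K : Type) [Field K] [NumberField K]
    (ι : GaussianInt →+* 𝓞 K)
    (art : (GaussianInt ⧸ Ideal.span {q})ˣ →* (𝓞 K ≃+* 𝓞 K)) : Prop where
  invariants : ∀ x : 𝓞 K, (∀ u, art u x = x) ↔ x ∈ ι.range
  kernel : ∀ u : (GaussianInt ⧸ Ideal.span {q})ˣ, art u = 1 ↔
    ∃ e : GaussianIntˣ, (u : GaussianInt ⧸ Ideal.span {q}) = Ideal.Quotient.mk _ (e : GaussianInt)
  unramified : ∀ v : HeightOneSpectrum (𝓞 K), ι q ∉ v.asIdeal →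
    ∀ u, (∀ x, art u x - x ∈ v.asIdeal) → art u = 1
  frobenius : ∀ π : GaussianInt, Prime π → ∀ u : (GaussianInt ⧸ Ideal.span {q})ˣ,
    (u : GaussianInt ⧸ Ideal.span {q}) = Ideal.Quotient.mk _ π →
    ∀ v : HeightOneSpectrum (𝓞 K), ι π ∈ v.asIdeal →
      ∀ x : 𝓞 K, art u x - x ^ π.norm.natAbs ∈ v.asIdeal

section
variable {K : Type} [Field K] [NumberField K]

/-- the Frobenius trace `a_v` of `y² = x³ - x`: the number of the residue classes modulo `v` minus the
number of the affine solutions `(x, y)` of the equation over the residue field `𝓞 K / v` -/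
noncomputable def a (v : HeightOneSpectrum (𝓞 K)) : ℤ :=
  ((Ideal.absNorm v.asIdeal : ℕ) : ℤ) -
    ((Nat.card {p : (𝓞 K ⧸ v.asIdeal) × (𝓞 K ⧸ v.asIdeal) // p.2 ^ 2 = p.1 ^ 3 - p.1} : ℕ) : ℤ)

/-- `α v`, `β v` are the roots of `T² - a_v T + N v` for every place `v` of `K` not dividing `M` -/
def FrobeniusRoots (M : ℕ) (α β : HeightOneSpectrum (𝓞 K) → ℂ) : Prop :=
  ∀ v : HeightOneSpectrum (𝓞 K), (M : 𝓞 K) ∉ v.asIdeal →
    α v + β v = (a v : ℂ) ∧ α v * β v = ((Ideal.absNorm v.asIdeal : ℕ) : ℂ)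

/-- the local factor in degree `i` at a place with `n` residue classes: the product of
`(1 - α^j β^(i-j) n^(-s))` over `0 ≤ j ≤ i` with the multiplicities `h j` -/
noncomputable def P (h : ℕ → ℕ) (i : ℕ) (α β : ℂ) (n : ℕ) (s : ℂ) : ℂ :=
  ∏ j ∈ Finset.range (i + 1), (1 - α ^ j * β ^ (i - j) * (n : ℂ) ^ (-s)) ^ h j

end

/-- the middle Hodge number `h^{i/2,i/2}`, zero for odd `i` -/
def mid (h : ℕ → ℕ) (i : ℕ) : ℕ := if i % 2 = 0 then h (i / 2) else 0

/-- `L` is the meromorphic continuation of `∏_{v ∤ M} P_i(v, s)⁻¹`: it is holomorphic for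
`s ≠ 1 + i/2`, it has at `1 + i/2` a pole of the exact order `mid h i` (it is holomorphic and not zero
there if `mid h i = 0`), and it has no zeros for `Re s ≥ 1 + i/2` -/
structure IsHasseWeil (K : Type) [Field K] [NumberField K] (M : ℕ) (h : ℕ → ℕ) (i : ℕ)
    (L : ℂ → ℂ) : Prop where
  euler : ∀ α β : HeightOneSpectrum (𝓞 K) → ℂ, FrobeniusRoots M α β →
    ∀ s : ℂ, 1 + (i : ℝ) / 2 < s.re →
      HasProd (fun v : {v : HeightOneSpectrum (𝓞 K) // (M : 𝓞 K) ∉ v.asIdeal} =>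
        (P h i (α v) (β v) (Ideal.absNorm v.1.asIdeal) s)⁻¹) (L s)
  continuation : ∃ G : ℂ → ℂ, Differentiable ℂ G ∧ G (1 + (i : ℂ) / 2) ≠ 0 ∧
    ∀ s : ℂ, s ≠ 1 + (i : ℂ) / 2 ∨ mid h i = 0 →
      (s - (1 + (i : ℂ) / 2)) ^ mid h i * L s = G s
  nonzero : ∀ s : ℂ, 1 + (i : ℝ) / 2 ≤ s.re → s ≠ 1 + (i : ℂ) / 2 → L s ≠ 0

/-- the zeros of `F` with `i/2 < Re s < i/2 + 1` and `T₁ < Im s ≤ T₂` -/
def zeros (F : ℂ → ℂ) (i : ℕ) (T₁ T₂ : ℝ) : Set ℂ :=
  {s : ℂ | (i : ℝ) / 2 < s.re ∧ s.re < (i : ℝ) / 2 + 1 ∧ T₁ < s.im ∧ s.im ≤ T₂ ∧ F s = 0}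

/-- the number of these zeros, counted with multiplicity -/
noncomputable def N (F : ℂ → ℂ) (i : ℕ) (T₁ T₂ : ℝ) : ℕ :=
  ∑ᶠ s ∈ zeros F i T₁ T₂, analyticOrderNatAt F s

/-- the number of those of them with `Re s = (i+1)/2`, counted with multiplicity -/
noncomputable def N₀ (F : ℂ → ℂ) (i : ℕ) (T₁ T₂ : ℝ) : ℕ :=
  ∑ᶠ s ∈ {s : ℂ | s ∈ zeros F i T₁ T₂ ∧ s.re = ((i : ℝ) + 1) / 2}, analyticOrderNatAt F s

open Pool.Agent.W354.HW (cnt strip line cnt_shift)
open Pool.Agent.V7H44.HL (LT LT_an LT_cnt LT_pole GH GH_diff GH_ne hasProd_M hl_main line_sub c0)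

lemma re_sub (s : ℂ) (i : ℕ) : (s - (i : ℂ) / 2).re = s.re - (i : ℝ) / 2 := by
  rw [show ((i : ℂ) / 2) = (((i : ℝ) / 2 : ℝ) : ℂ) by push_cast; rfl, Complex.sub_re,
    Complex.ofReal_re]

lemma im_sub (s : ℂ) (i : ℕ) : (s - (i : ℂ) / 2).im = s.im := by
  rw [show ((i : ℂ) / 2) = (((i : ℝ) / 2 : ℝ) : ℂ) by push_cast; rfl, Complex.sub_im,
    Complex.ofReal_im, sub_zero]

lemma zeros_eq (F G : ℂ → ℂ) (i : ℕ) (T₁ T₂ : ℝ) (hG : ∀ s : ℂ, (i : ℝ) / 2 < s.re → G s ≠ 0) :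
    zeros (fun s => F (s - (i : ℂ) / 2) * G s) i T₁ T₂ =
    {s : ℂ | s ∈ {s | s - (i : ℂ) / 2 ∈ strip T₁ T₂} ∧ F (s - (i : ℂ) / 2) = 0} := by
  ext s
  simp only [zeros, strip, Set.mem_ofPred_eq, re_sub, im_sub]
  constructor
  · rintro ⟨a, b, c, d, e⟩
    exact ⟨⟨by linarith, by linarith, c, d⟩, (mul_eq_zero.1 e).resolve_right (hG s a)⟩
  · rintro ⟨⟨a, b, c, d⟩, e⟩
    refine ⟨by linarith, by linarith, c, d, ?_⟩
    rw [e, zero_mul]

lemma line_eq (F G : ℂ → ℂ) (i : ℕ) (T₁ T₂ : ℝ) (hG : ∀ s : ℂ, (i : ℝ) / 2 < s.re → G s ≠ 0) :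
    {s : ℂ | s ∈ zeros (fun s => F (s - (i : ℂ) / 2) * G s) i T₁ T₂ ∧
      s.re = ((i : ℝ) + 1) / 2} =
    {s : ℂ | s ∈ {s | s - (i : ℂ) / 2 ∈ line T₁ T₂} ∧ F (s - (i : ℂ) / 2) = 0} := by
  rw [zeros_eq F G i T₁ T₂ hG]
  ext s
  simp only [line, strip, Set.mem_ofPred_eq, re_sub, im_sub]
  constructor
  · rintro ⟨⟨⟨a, b, c, d⟩, e⟩, f⟩
    exact ⟨⟨by linarith, c, d⟩, e⟩
  · rintro ⟨⟨a, c, d⟩, e⟩
    exact ⟨⟨⟨by linarith, by linarith, c, d⟩, e⟩, by linarith⟩

lemma order_eq {F G : ℂ → ℂ} (i : ℕ) {s : ℂ} (hF : AnalyticAt ℂ F (s - (i : ℂ) / 2))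
    (hGd : Differentiable ℂ G) (h0 : G s ≠ 0) :
    analyticOrderNatAt (fun s => F (s - (i : ℂ) / 2) * G s) s =
      analyticOrderNatAt (fun s => F (s - (i : ℂ) / 2)) s := by
  unfold analyticOrderNatAt
  have h1 : AnalyticAt ℂ (fun s => F (s - (i : ℂ) / 2)) s :=
    AnalyticAt.fun_comp hF (by fun_prop)
  rw [Pool.Agent.W164.RC.order_mul_ne h1 (hGd.analyticAt s) h0]

lemma an_shift {F : ℂ → ℂ} (hF : ∀ s : ℂ, s ≠ 1 → AnalyticAt ℂ F s) (i : ℕ) {s : ℂ}
    (h : 0 < (s - (i : ℂ) / 2).im) : AnalyticAt ℂ F (s - (i : ℂ) / 2) := by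
  apply hF
  intro h1
  rw [h1, Complex.one_im] at h
  exact lt_irrefl _ h

lemma N_eq {F G : ℂ → ℂ} (hF : ∀ s : ℂ, s ≠ 1 → AnalyticAt ℂ F s) (hGd : Differentiable ℂ G)
    (i : ℕ) (T₁ T₂ : ℝ) (hT : 0 ≤ T₁) (hG : ∀ s : ℂ, (i : ℝ) / 2 < s.re → G s ≠ 0) :
    N (fun s => F (s - (i : ℂ) / 2) * G s) i T₁ T₂ = cnt F (strip T₁ T₂) := by
  rw [← cnt_shift F ((i : ℂ) / 2)]
  unfold N cnt H370.mult
  rw [zeros_eq F G i T₁ T₂ hG]
  refine finsum_mem_congr rfl fun s hs => ?_
  have h2 := hs.1.1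
  have h3 := hs.1.2.2.1
  rw [re_sub] at h2
  exact order_eq i (an_shift hF i (by linarith)) hGd (hG s (by linarith))

lemma N₀_eq {F G : ℂ → ℂ} (hF : ∀ s : ℂ, s ≠ 1 → AnalyticAt ℂ F s) (hGd : Differentiable ℂ G)
    (i : ℕ) (T₁ T₂ : ℝ) (hT : 0 ≤ T₁) (hG : ∀ s : ℂ, (i : ℝ) / 2 < s.re → G s ≠ 0) :
    N₀ (fun s => F (s - (i : ℂ) / 2) * G s) i T₁ T₂ = cnt F (line T₁ T₂) := by
  rw [← cnt_shift F ((i : ℂ) / 2)]
  unfold N₀ cnt H370.mult
  rw [line_eq F G i T₁ T₂ hG]
  refine finsum_mem_congr rfl fun s hs => ?_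
  have h2 := hs.1.1
  have h3 := hs.1.2.1
  rw [re_sub] at h2
  exact order_eq i (an_shift hF i (by linarith)) hGd (hG s (by linarith))

/-- **Main theorem.** -/
theorem result : ∃ C η : ℝ, 0 < η ∧
    ∀ q : GaussianInt, q ≠ 0 → (⟨2, 2⟩ : GaussianInt) ∣ q →
    ∀ (K : Type) [Field K] [NumberField K] (ι : GaussianInt →+* 𝓞 K)
      (art : (GaussianInt ⧸ Ideal.span {q})ˣ →* (𝓞 K ≃+* 𝓞 K)), IsRayClassField q K ι art →
    ∀ M : ℕ, M ≠ 0 →
      (∀ v : HeightOneSpectrum (𝓞 K), ι q ∈ v.asIdeal → (M : 𝓞 K) ∈ v.asIdeal) →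
    ∀ (h : ℕ → ℕ) (i : ℕ), (∀ j ≤ i, h (i - j) = h j) →
    ∃ L : ℂ → ℂ, IsHasseWeil K M h i L ∧
      ∀ (w : ℕ) (T : ℝ), (∀ j ≤ i, h j ≠ 0 → i ≤ 2 * j + w) →
        (w : ℝ) ≤ (Zsqrtd.norm q : ℝ) ^ η →
        C * (1 + Real.sqrt (Real.log (Zsqrtd.norm q : ℝ))) ≤ T →
        T ≤ (Zsqrtd.norm q : ℝ) ^ η →
        (zeros L i T (2 * T)).Finite ∧
        ((∑ j ∈ Finset.range (i + 1), h j : ℕ) : ℝ) * (Nat.card art.range : ℝ) * T ≤
          (N L i T (2 * T) : ℝ) ∧
        0.6725 * (N L i T (2 * T) : ℝ) ≤ (N₀ L i T (2 * T) : ℝ) := by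
  classical
  obtain ⟨cd, pr, hprim⟩ := Pool.Agent.Y762.HK.exists_prim
  obtain ⟨C, η, hC, hη, H⟩ := hl_main cd pr hprim
  refine ⟨C, η / 2, by positivity, ?_⟩
  intro q hq h2 K _ _ ι art hK M hM hqM h i hh
  have hK' : Pool.Agent.W164.RC.IsRayClassField q K ι art :=
    ⟨hK.invariants, hK.kernel, hK.unramified, hK.frobenius⟩
  have hFa : ∀ s : ℂ, s ≠ 1 → AnalyticAt ℂ (LT pr q h i) s :=
    fun s hs => LT_an cd pr hprim hq h i hs
  have hGd := GH_diff q ι M hM h i
  have hGn : ∀ s : ℂ, (i : ℝ) / 2 < s.re → GH q ι M hM h i s ≠ 0 :=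
    fun s hs => GH_ne h2 ι M hM h i hs
  obtain ⟨⟨G, hG, hG1, hG2⟩, hnz⟩ := LT_pole cd pr hprim hq h2 hK' h i
  have hone : ∀ s : ℂ, s - (i : ℂ) / 2 = 1 ↔ s = 1 + (i : ℂ) / 2 := fun s =>
    ⟨fun h => by rw [← h]; ring, fun h => by rw [h]; ring⟩
  have hre1 : (1 + (i : ℂ) / 2 : ℂ).re = 1 + (i : ℝ) / 2 := by
    rw [show ((i : ℂ) / 2) = (((i : ℝ) / 2 : ℝ) : ℂ) by push_cast; rfl, Complex.add_re,
      Complex.ofReal_re, Complex.one_re]
  refine ⟨fun s => LT pr q h i (s - (i : ℂ) / 2) * GH q ι M hM h i s, ⟨?_, ?_, ?_⟩, ?_⟩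
  · intro α β hαβ s hs
    exact hasProd_M cd pr hprim hq h2 hK' M hM hqM α β hαβ h i hh hs
  · refine ⟨fun s => G (s - (i : ℂ) / 2) * GH q ι M hM h i s,
      (hG.comp (differentiable_id.sub_const _)).mul hGd, ?_, ?_⟩
    · show G (1 + (i : ℂ) / 2 - (i : ℂ) / 2) * GH q ι M hM h i (1 + (i : ℂ) / 2) ≠ 0
      rw [(hone _).2 rfl]
      exact mul_ne_zero hG1 (hGn _ (by rw [hre1]; linarith))
    · intro s hs
      show (s - (1 + (i : ℂ) / 2)) ^ mid h i * (LT pr q h i (s - (i : ℂ) / 2) *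
        GH q ι M hM h i s) = G (s - (i : ℂ) / 2) * GH q ι M hM h i s
      have h3 : s - (i : ℂ) / 2 ≠ 1 ∨ c0 h i = 0 := by
        rcases hs with hs | hs
        · exact Or.inl fun h => hs ((hone s).1 h)
        · exact Or.inr hs
      have h4 := hG2 _ h3
      have e : s - (1 + (i : ℂ) / 2) = s - (i : ℂ) / 2 - 1 := by ring
      rw [e, ← h4]
      show (s - (i : ℂ) / 2 - 1) ^ c0 h i * (LT pr q h i (s - (i : ℂ) / 2) *
        GH q ι M hM h i s) = _
      ring
  · intro s hs hs1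
    refine mul_ne_zero (hnz _ ?_ fun h => hs1 ((hone s).1 h)) (hGn s (by linarith))
    rw [re_sub]
    linarith
  · intro w T hw hwq hT hT2
    have hQ1 : 1 ≤ ‖Pool.Agent.H304R3.HK.tc q‖ := Pool.Agent.H304R3.HK.one_le_norm_tc hq
    obtain ⟨Q, hQ⟩ : ∃ Q : ℝ, Q = ‖Pool.Agent.H304R3.HK.tc q‖ := ⟨_, rfl⟩
    have hnq : (Zsqrtd.norm q : ℝ) = Q ^ 2 := by
      rw [hQ]
      exact (Pool.Agent.H304R3.HK.tc_star_mul q).symm
    have hQ0 : 0 ≤ Q := by rw [hQ]; exact norm_nonneg _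
    have hpow : (Q ^ 2) ^ (η / 2) = Q ^ η := by
      rw [← Real.rpow_natCast, ← Real.rpow_mul hQ0]
      congr 1
      push_cast
      ring
    rw [hnq] at hT
    rw [hnq, hpow] at hwq hT2
    have hT1 : 1 ≤ T := by
      refine le_trans ?_ hT
      have := Real.sqrt_nonneg (Real.log (Q ^ 2))
      nlinarith
    obtain ⟨k1, k2⟩ := H q h i w T hq h2 hh hw (by rw [← hQ]; exact hwq)
      (by rw [← hQ]; exact hT) (by rw [← hQ]; exact hT2)
    have hT0 : 0 ≤ T := by linarith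
    rw [N_eq hFa hGd i T (2 * T) hT0 hGn, N₀_eq hFa hGd i T (2 * T) hT0 hGn]
    refine ⟨?_, ?_, k1⟩
    · rw [zeros_eq _ _ i T (2 * T) hGn]
      have hfin := (LT_cnt cd pr hprim hq h i hT1 subset_rfl).1.fin
      refine (hfin.preimage (f := fun s : ℂ => s - (i : ℂ) / 2)
        ((sub_left_injective).injOn)).subset ?_
      rintro s ⟨hs1, hs2⟩
      exact ⟨hs1, hs2⟩
    · have hcard := Pool.Agent.W164.RC.ray_card hq h2 hK'
      have hcard' : (Nat.card art.range : ℝ) = (H385.phiQ q : ℝ) / 4 := by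
        have : ((4 * Nat.card art.range : ℕ) : ℝ) = (H385.phiQ q : ℝ) := by exact_mod_cast hcard
        push_cast at this
        linarith
      rw [hcard']
      exact k2

end Pool.Agent.Results.MP_7193be_nt.AllHodgeNumbersH44
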