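import Pool.Agent.V7H1.ED.Sec

/-!
# MP_7193be_nt: zeros and poles of a Hasse-Weil L-function on the edge of absolute convergence, and the
# prime number theorem for the traces of Frobenius

Let `α p j`, `p ∤ N`, `j < b`, be complex numbers with the properties of the eigenvalues of the
Frobenius elements on `H^i(X)` (`‖α p j‖ = p^(i/2)`, and `∏ (1 - α p j T)` has integral coefficients;
by Deligne this covers every smooth projective `X` over `ℤ[1/N]` and every `i`), and let
`L(s) = ∏_p ∏_j (1 - α p j p^(-s))⁻¹` for `Re s > 1 + i/2`.  Of part (a) of the question only the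
following is assumed: `F = L` for `Re s > 1 + i/2`, and `F` is meromorphic at each point of the line
`Re s = 1 + i/2`.  There is no hypothesis on zeros, poles, growth, or on a functional equation, and the
whole plane is not needed.  For real `t` let `- m(t)` be the order of `F` at `1 + i/2 + i t`.  Then

1. `m(t)` is an integer, zero for all but finitely many `t`, and `m(-t) = m(t)`;
2. the trigonometric polynomial `M(u) = ∑_t m(t) cos (t u)` satisfies `|M(u)| ≤ b` for all real `u`;
3. `∑_t m(t)^2 ≤ b^2`, so there are at most `b^2` zeros and poles on the line;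
4. more precisely `∑_t m(t)^2 ≤ V`, if `V` is the lower limit for `σ → 1` of
   `(σ - 1) ∑_p (a_p / p^(i/2))^2 log p / p^σ`, `a_p = ∑_j α p j` the trace of Frobenius; if the
   Euler product of `H^i ⊗ H^i` has a pole of order `V` at `1 + i`, this is `V`.  So if `V < 2`,
   there are no zeros and no poles on the line with the exception of `1 + i/2` itself, which has the
   order `-1`, `0` or `1`;
5. the prime number theorem: `1/x ∑_{p ≤ x} (a_p / p^(i/2) - M(log p)) log p → 0`.

From 2 (`u = 0`): the number of poles minus the number of zeros is between `- b` and `b`, and if there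
are no poles, there are at most `b` zeros with multiplicities.  From 5: the part (a) of the question at
the points of the line alone gives an asymptotic formula for the averages of the traces, with the zeros
(if there are any) as further terms.

Proof.  `m(t)` is the mean of `θ(n) n^(-it)` with the weights `(σ - 1) Λ(n) n^(-σ)`, `σ → 1`, where
`θ(p^k)` is the normalised trace of the `k`-th power of Frobenius, `|θ| ≤ b`.  The functions `n^(it)` are
orthonormal for the mean, hence 3, 4 (Bessel), and the finiteness, as `m(t)` is an integer.  In the same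
way the convolution with `m` has the norm at most `b` on the functions on the real line with
finite support; taking powers of `m` in the group ring of the real numbers this gives the bound 2
for the supremum norm (the number of the frequencies of `m^k` grows polynomially in `k`).
For 5 the theorem of Wiener and Ikehara is applied to `(θ(n) - M(log n) + K) Λ(n) ≥ 0`: by
construction all singularities on the line cancel, with the exception of the pole at `s = 1` with the
residue `K`.
-/

set_option autoImplicit false

namespace Pool.Agent.Results.MP_7193be_nt.EdgeDivisorH1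

open Filter Topology
open Pool.Agent.V7H1.HW (Good Frob Euler)
open Pool.Agent.V7H1.ED

/-- **Zeros and poles on the edge, and the prime number theorem.** -/
theorem result {N i b : ℕ} (hN : 0 < N) (α : Good N → Fin b → ℂ) (E : Frob N i b α) (F : ℂ → ℂ)
    (C : EdgeCont i α F) :
    ∃ m : ℝ →₀ ℤ,
      (∀ t : ℝ, meromorphicOrderAt F (1 + ((i : ℝ) / 2 : ℝ) + t * Complex.I) =
        ((-m t : ℤ) : WithTop ℤ)) ∧
      (∀ t : ℝ, m (-t) = m t) ∧
      (∀ u : ℝ, |∑ t ∈ m.support, (m t : ℝ) * Real.cos (t * u)| ≤ b) ∧
      ∑ t ∈ m.support, m t ^ 2 ≤ (b : ℤ) ^ 2 ∧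
      (∀ V : ℝ, (∃ᶠ σ in 𝓝[>] (1 : ℝ), (σ - 1) * ∑' p : Good N,
        ((∑ j, α p j).re / ((p.1 : ℕ) : ℝ) ^ ((i : ℝ) / 2)) ^ 2 * Real.log (p.1 : ℕ) *
          ((p.1 : ℕ) : ℝ) ^ (-σ) ≤ V) → ∑ t ∈ m.support, (m t : ℝ) ^ 2 ≤ V) ∧
      Tendsto (fun x : ℝ => (∑' p : Good N, if ((p.1 : ℕ) : ℝ) ≤ x then
        ((∑ j, α p j).re / ((p.1 : ℕ) : ℝ) ^ ((i : ℝ) / 2) -
          ∑ t ∈ m.support, (m t : ℝ) * Real.cos (t * Real.log (p.1 : ℕ))) *
            Real.log (p.1 : ℕ) else 0) / x) atTop (𝓝 0) := by
  have hb : (0 : ℝ) ≤ b := Nat.cast_nonneg b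
  have B := basic_mu E C
  have hfin := finite_of_int hb B
  refine ⟨Finsupp.ofSupportFinite (mu i F) hfin, ?_, ?_, ?_, ?_, ?_, ?_⟩
  · intro t
    have h1 := mu_spec E C t
    rw [order_Sh] at h1
    rw [Finsupp.ofSupportFinite_coe, ← h1]
    congr 1
    ring
  · intro t
    rw [Finsupp.ofSupportFinite_coe]
    exact mu_neg E C t
  · intro u
    set m : ℝ →₀ ℤ := Finsupp.ofSupportFinite (mu i F) hfin with hm
    set f : AddMonoidAlgebra ℝ ℝ := AddMonoidAlgebra.ofCoeff (m.mapRange (fun k : ℤ => (k : ℝ)) (by simp))
      with hf
    have h1 : ∀ t, f.coeff t = (mu i F t : ℝ) := by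
      intro t
      rw [hf, AddMonoidAlgebra.coeff_ofCoeff, Finsupp.mapRange_apply, hm,
        Finsupp.ofSupportFinite_coe]
    have h2 : Basic b f.coeff := by
      have : (f.coeff : ℝ → ℝ) = fun t => (mu i F t : ℝ) := funext h1
      rw [this]
      exact B
    have h3 := sup_le hb h2 u
    have h4 : (ev u f).re = ∑ t ∈ m.support, (m t : ℝ) * Real.cos (t * u) := by
      have h5 : f.coeff.support = m.support := by
        ext t
        rw [Finsupp.mem_support_iff, Finsupp.mem_support_iff, h1, hm, Finsupp.ofSupportFinite_coe,
          Int.cast_ne_zero]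
      rw [ev_apply, h5, Complex.re_sum]
      refine Finset.sum_congr rfl fun t _ => ?_
      rw [h1, hm, Finsupp.ofSupportFinite_coe, Complex.re_ofReal_mul, Complex.exp_ofReal_mul_I_re]
    rw [← h4]
    exact (Complex.abs_re_le_norm _).trans h3
  · have h1 := bessel hb B (Finsupp.ofSupportFinite (mu i F) hfin).support
    exact_mod_cast h1
  · intro V hV
    exact second E C _ hV
  · refine prime_mean hN E C _ fun t => ?_
    rw [Finsupp.mem_support_iff]
    rfl

end Pool.Agent.Results.MP_7193be_nt.EdgeDivisorH1
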