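import Pool.Agent.V7H1.HW.Comp

/-!
# MP_7193be_nt: orders, values, functional equation and zeros of a Hasse-Weil L-function from the
# traces of Frobenius, at every point of the plane

Let `α p j`, `p ∤ N`, `j < b`, be complex numbers with the properties of the eigenvalues of the
Frobenius elements on `H^i(X)` (`‖α p j‖ = p^(i/2)`, and `∏ (1 - α p j T)` has integral coefficients;
by Deligne this covers every smooth projective `X` over `ℤ[1/N]` and every `i`), and let `F` be a
meromorphic continuation of `L(i; X, s) = ∏_p ∏_j (1 - α p j p^(-s))⁻¹` to the plane; this is part (a) of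
the question.  Nothing is assumed about the growth or the zeros of `F`, and no functional equation.
For a point `σ + i t` of the plane, `γ > π/2` and `T > 0` put

`W(T) = ∑_{p, n} Re (∑_j α p j ^ n) / (n p^(nσ)) * cos (t n log p) * exp (i γ n log p / T) /
  Γ(1 + n log p / T)`.

1. The sum converges absolutely.
2. At EVERY point there are an integer `n` and a complex number `c` with
   `W(T) = - n (log T - Λ) + c + O(1/T)`, and then `n` is the order of `F` at `σ + i t`, `Re c` is the
   logarithm of the absolute value of the leading coefficient of `F` at the point, and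
   `Im c = - π (Z - P)`, where `Z - P` is the number of the zeros minus the number of the poles of `F`
   on the open half line `{x + i t : x > σ}`.
3. So the parts (b), (c), (d) of the question are statements about the limits of these sums.
   Part (c) holds if and only if on the line `σ = (i+1)/2` the limit `c` is real for every `t ≠ 0`, and
   for `t = 0` has the imaginary part `π ρ`, where `ρ ≥ 0` is the order of the pole at `1 + i/2`, itself
   given by the sums at `1 + i/2`; here poles with `Re s > (i+1)/2` are only allowed at `1 + i/2`.
4. Part (b), the functional equation with the gamma factors of the given Hodge numbers, given Euler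
   factors at the primes dividing `N` and given `A`, holds if and only if for all `s = σ + i t` with
   `σ > 1 + i/2` (not real and no zero of the bad polynomials at `s`, `i + 1 - s`) the real parts of the
   sums at `i + 1 - s` and at `s` differ in the limit by the logarithm of the absolute value of the
   quotient of the other factors.
5. If (b) holds, and the bad factors have no poles for `Re s > (i+1)/2`, then part (d) is equivalent to
   the condition for part (c).

Proof.  `1/Γ(1 + v)` is an integral of `exp (exp z) e^(-zv)` over the boundary of the half strip of width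
`2π` (Hankel), so `W(T)` is the integral of `exp (exp z)` times the logarithm of
`F(σ + i t + w) F(σ - i t + w)`, `w = (z - i γ)/T`, which can be shifted to the left along a strip below the
half line (library N41.RM: `EG.off`, the law of point 2 for Euler products).  The sums then give the
absolute value of `F` at every point; the functional equation follows by the maximum principle (a
quotient of constant absolute value is constant) and the identity theorem.
-/

set_option autoImplicit false

namespace Pool.Agent.Results.MP_7193be_nt.LocalCriteriaH1

open Filter Topology Set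
open Pool.Agent.V7H1.HW
open Pool.Agent.W187.UR (Lam)
open Pool.Agent.N41.RM (rayN)

/-- **Orders, leading coefficients, functional equation and zeros from the traces of Frobenius.** -/
theorem result {N i b : ℕ} (α : Good N → Fin b → ℂ) (E : Frob N i b α) (F : ℂ → ℂ)
    (C : Cont i α F) (γ : ℝ) (hγ : Real.pi / 2 < γ) :
    (∀ σ t T : ℝ, 0 < T → Summable fun x => ‖term α σ t γ T x‖) ∧
    (∀ σ t : ℝ, ∃ (n : ℤ) (c : ℂ),
      (fun T : ℝ => W α σ t γ T + n * (Real.log T - Lam γ) - c) =O[atTop]
        (fun T : ℝ => 1 / T)) ∧
    (∀ (σ t : ℝ) (n : ℤ) (c : ℂ),
      Tendsto (fun T : ℝ => W α σ t γ T + n * (Real.log T - Lam γ)) atTop (𝓝 c) ↔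
        meromorphicOrderAt F (σ + t * Complex.I) = n ∧
        c = Real.log ‖meromorphicTrailingCoeffAt F (σ + t * Complex.I)‖ -
          Real.pi * rayN F σ t * Complex.I) ∧
    (FewPoles i F → (PartC i F ↔ CritC i α γ)) ∧
    ∀ (h : ℕ → ℕ) (hp hm : ℕ) (Q : ℕ → Polynomial ℝ) (A : ℝ), 0 < A →
      (∀ p ∈ N.primeFactors, (Q p).coeff 0 ≠ 0) →
      (FEq ((i : ℝ) + 1) (fun s => extra N i h hp hm Q A s * F s) ↔
        CritB i α γ (extra N i h hp hm Q A) (Pt N i Q)) ∧
      (BadOK N i Q → FewPoles i F →
        FEq ((i : ℝ) + 1) (fun s => extra N i h hp hm Q A s * F s) →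
        (PartD i (fun s => extra N i h hp hm Q A s * F s) ↔ CritC i α γ)) := by
  refine ⟨fun σ t T hT => W_summable E σ t γ hT, fun σ t => ?_,
    fun σ t n c => lim_iff E C σ t hγ n c, fun hP => partC_iff E C hP hγ,
    fun h hp hm Q A hA hQ => ⟨partB_extra E C hA hQ hγ, fun hQ2 hP hFE => ?_⟩⟩
  · obtain ⟨n, c, hc⟩ := lim_exists E C σ t hγ
    exact ⟨n, c, lim_rate E C σ t hγ hc⟩
  · rw [partD_iff C (extra_mero hA) (fun s hs => extra_right hA hQ2 hs) hFE,
      partC_iff E C hP hγ]

end Pool.Agent.Results.MP_7193be_nt.LocalCriteriaH1
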