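import Pool.Agent.V7H1.SM.HasseWeil

/-!
# MP_7193be_nt: continuation without zeros of a Hasse-Weil L-function is equivalent to the local
# boundedness of its rotated Euler products; no hypothesis of continuation

Let `α p j`, `p ∤ N`, `j < b`, be complex numbers with the properties of the eigenvalues of the
Frobenius elements on `H^i(X)` (`‖α p j‖ = p^(i/2)`, and `∏ (1 - α p j T)` has integral coefficients;
by Deligne this covers every smooth projective `X` over `ℤ[1/N]` and every `i`), and let
`L(s) = ∏_p ∏_j (1 - α p j p^(-s))⁻¹` for `Re s > 1 + i/2`.  No continuation of `L`, no functional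
equation and nothing on zeros or growth is assumed.  For a real number `γ` (it may be `0`) and `T > 0`
put

`S_T(s) = ∑_{p, n} (∑_j α p j ^ n) / n * p^(-ns) * exp (i γ n log p / T) / Γ(1 + n log p / T)`,

the logarithm of the Euler product with the factor `exp (i γ v) / Γ(1 + v)`, `v = n log p / T`, in the
term of `p^n`.  The sums converge absolutely for all `s`, and are entire functions.  Let `U` be any open
set which contains with `s` the half line `s + [0, ∞)`, for instance the half-plane
`Re s > (i+1)/2`, or this half-plane without the real points `≤ 1 + i/2`, or a neighbourhood of a single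
half line.  Then the following statements are equivalent.

1. `L` has a holomorphic continuation to `U` without zeros.
2. For one sequence `T_k → ∞` the rotated Euler products `|exp S_{T_k}|` are locally bounded (above) on
   `U`.
3. For one sequence `T_k → ∞` they are locally bounded away from zero on `U`.
4. `S_T` converges as `T → ∞` uniformly on the compact subsets of `U`, with the rate `O(1/T)`, to a
   holomorphic function, a logarithm of `L`.

For `U = {Re s > (i+1)/2}` statement 1 is the part (a) of the question for this half-plane together with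
part (c).  For partial Euler products such an equivalence needs the continuation to the plane, the
functional equation and bounds for the growth (and the products are then bounded at single points only
if the Riemann hypothesis holds).

Proof.  `1/Γ(1 + v)` is an integral of `exp (exp z) e^(-zv)` over the boundary of the half strip
`Re z ≥ b, |Im z| ≤ π` (Hankel; library W189.ML), so `S_T(s)` is the integral of
`exp (exp z) log L(s + (z - iγ)/T)`.  If there is a logarithm of `L` on `U`, the contour may be shifted
to `b = 1`, and the argument of `log L` stays in a thin half strip around the half line `s + [0, ∞)`;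
this gives 4.  The logarithm exists as `U` (together with the half-plane of absolute convergence) is
contractible.  If the products are bounded above, the real parts of `S_{T_k}` are; by Borel and
Caratheodory, and by convergence of the Taylor coefficients, the convergence spreads from disc to disc
along horizontal half lines to the left.
-/

set_option autoImplicit false

namespace Pool.Agent.Results.MP_7193be_nt.SummationH1

open Filter Topology Set Metric
open Pool.Agent.V7H1.HW (Good Frob Euler)
open Pool.Agent.V7H1.SM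

/-- the term of the rotated sum at `p ^ n`, `n = x.2 + 1`; here `fr x = n log p` and
`tr α x = (∑_j α p j ^ n) / n` -/
noncomputable def term {N b : ℕ} (α : Good N → Fin b → ℂ) (γ T : ℝ) (s : ℂ) (x : Good N × ℕ) :
    ℂ :=
  tr α x * Complex.exp (-(s * fr x)) *
    (Complex.exp ((γ * (fr x / T) : ℝ) * Complex.I) * (((Real.Gamma (1 + fr x / T))⁻¹ : ℝ) : ℂ))

/-- the rotated sum -/
noncomputable def S {N b : ℕ} (α : Good N → Fin b → ℂ) (γ T : ℝ) (s : ℂ) : ℂ :=
  ∑' x, term α γ T s x

/-- **Continuation without zeros and local boundedness of the rotated Euler products.** -/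
theorem result {N i b : ℕ} (α : Good N → Fin b → ℂ) (E : Frob N i b α) (γ : ℝ) (U : Set ℂ)
    (hU : IsOpen U) (hr : ∀ s ∈ U, ∀ x : ℝ, 0 ≤ x → s + x ∈ U) :
    (∀ T : ℝ, 0 < T → (∀ s, Summable fun x => ‖term α γ T s x‖) ∧ Differentiable ℂ (S α γ T)) ∧
    List.TFAE [
      ∃ F : ℂ → ℂ, DifferentiableOn ℂ F U ∧ (∀ s ∈ U, F s ≠ 0) ∧
        ∀ s ∈ U, 1 + (i : ℝ) / 2 < s.re → F s = Euler α s,
      ∃ t : ℕ → ℝ, Tendsto t atTop atTop ∧ (∀ k, 0 < t k) ∧
        ∀ s ∈ U, ∃ r > 0, ∃ M : ℝ, ∀ k, ∀ z ∈ ball s r, ‖Complex.exp (S α γ (t k) z)‖ ≤ M,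
      ∃ t : ℕ → ℝ, Tendsto t atTop atTop ∧ (∀ k, 0 < t k) ∧
        ∀ s ∈ U, ∃ r > 0, ∃ m > 0, ∀ k, ∀ z ∈ ball s r, m ≤ ‖Complex.exp (S α γ (t k) z)‖,
      ∃ l : ℂ → ℂ, DifferentiableOn ℂ l U ∧
        (∀ s ∈ U, 1 + (i : ℝ) / 2 < s.re → Complex.exp (l s) = Euler α s) ∧
        ∀ K ⊆ U, IsCompact K → ∃ C T₀ : ℝ, 0 < T₀ ∧ ∀ T ≥ T₀, ∀ s ∈ K,
          ‖S α γ T s - l s‖ ≤ C / T] := by
  have D := cd E
  have hR : RightOpen U := ⟨hU, hr⟩
  have hS : ∀ T s, S α γ T s = rot fr (tr α) γ T s := fun T s => rfl
  have hS' : ∀ T, S α γ T = rot fr (tr α) γ T := fun T => rfl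
  have hE : (∃ F : ℂ → ℂ, DifferentiableOn ℂ F U ∧ (∀ s ∈ U, F s ≠ 0) ∧
        ∀ s ∈ U, 1 + (i : ℝ) / 2 < s.re → F s = Complex.exp (cser fr (tr α) s)) ↔
      ∃ F : ℂ → ℂ, DifferentiableOn ℂ F U ∧ (∀ s ∈ U, F s ≠ 0) ∧
        ∀ s ∈ U, 1 + (i : ℝ) / 2 < s.re → F s = Euler α s := by
    refine exists_congr fun F => and_congr_right fun _ => and_congr_right fun _ =>
      forall₃_congr fun s _ hs => ?_
    rw [exp_cser E hs]
  have h1 := D.tfae hR γ
  have h2 := D.lower hR γ
  refine ⟨fun T hT => ⟨fun s => D.rot_summable γ hT s, D.rot_diff γ hT⟩, ?_⟩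
  simp_rw [hS]
  tfae_have 1 ↔ 2 := by
    rw [← hE]
    exact h1.out 0 1
  tfae_have 1 ↔ 3 := by
    rw [← hE]
    exact h2
  tfae_have 1 → 4 := by
    rw [← hE]
    intro h
    obtain ⟨l, e1, e2, e3⟩ := (h1.out 0 2).1 h
    refine ⟨l, e1, fun s hs hsA => ?_, e3⟩
    rw [e2 s hs hsA, exp_cser E hsA]
  tfae_have 4 → 1 := by
    rintro ⟨l, e1, e2, -⟩
    exact ⟨fun s => Complex.exp (l s), e1.cexp, fun s _ => Complex.exp_ne_zero _, e2⟩
  tfae_finish

end Pool.Agent.Results.MP_7193be_nt.SummationH1
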